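import Pool.Agent.H17.DC.PP

/-!
# When the rings are domains
-/

set_option autoImplicit false

open Polynomial

noncomputable section

namespace Pool.Agent.H17.DC

open BQ Pool.Agent.W394.BQN Pool.Agent.TH874.BQS Pool.Agent.H40.BP Pool.Agent.H9C.CS
  Pool.Agent.H9C.DT Pool.Agent.TH874.BQS.Sums IsLocalRing Pool.Agent.H17.DN

/-- the reduction of `P1` modulo an element -/
theorem p1_red {E Q : Type} [CommRing E] [CommRing Q] (π : E →+* Q) (hπ : Function.Surjective π)
    (τ : E) (hk : ∀ x, π x = 0 ↔ τ ∣ x) (k : ℕ) (a σ : E) :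
    ∃ ρ : P1 k a σ →+* P1 k (π a) (π σ), Function.Surjective ρ ∧
      (∀ y, ρ y = 0 ↔ c1 k a σ τ ∣ y) ∧ ∀ x, ρ (c1 k a σ x) = c1 k (π a) (π σ) (π x) := by
  obtain ⟨ρ, hρ⟩ : ∃ ρ : P1 k a σ →+* P1 k (π a) (π σ), ρ = p1Lift ((c1 k (π a) (π σ)).comp π)
    (fun i => qm _ (MvPolynomial.X i)) (p1_rel k (π a) (π σ)) := ⟨_, rfl⟩
  have hq : ∀ p : MvPolynomial (Fin k) E, ρ (qm _ p) = qm _ (MvPolynomial.map π p) := by
    intro p
    have h : ρ.comp (qm (rel k a σ)) = (qm (rel k (π a) (π σ))).comp (MvPolynomial.map π) := by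
      apply MvPolynomial.ringHom_ext
      · intro x
        show ρ (c1 k a σ x) = _
        rw [hρ, p1Lift_c, RingHom.comp_apply (qm (rel k (π a) (π σ))), MvPolynomial.map_C]
        rfl
      · intro i
        rw [RingHom.comp_apply, RingHom.comp_apply, MvPolynomial.map_X, hρ, p1Lift_X]
    exact RingHom.congr_fun h p
  have hc : ∀ x, ρ (c1 k a σ x) = c1 k (π a) (π σ) (π x) := fun x => by
    rw [hρ, p1Lift_c]
    rfl
  refine ⟨ρ, ?_, ?_, hc⟩
  · intro y
    obtain ⟨p, rfl⟩ := Ideal.Quotient.mk_surjective y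
    obtain ⟨p', rfl⟩ := MvPolynomial.map_surjective π hπ p
    exact ⟨qm _ p', hq p'⟩
  · intro y
    constructor
    · intro h
      obtain ⟨p, rfl⟩ := Ideal.Quotient.mk_surjective y
      have h1 : qm (rel k (π a) (π σ)) (MvPolynomial.map π p) = 0 := by
        rw [← hq]
        exact h
      obtain ⟨r, hr⟩ := Ideal.mem_span_singleton.1 (Ideal.Quotient.eq_zero_iff_mem.1 h1)
      obtain ⟨r', rfl⟩ := MvPolynomial.map_surjective π hπ r
      have h2 : MvPolynomial.map π (p - rel k a σ * r') = 0 := by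
        rw [map_sub, map_mul, hr, Pool.Agent.H40.BP.map_rel, sub_self]
      have h3 : (MvPolynomial.C τ : MvPolynomial (Fin k) E) ∣ p - rel k a σ * r' := by
        rw [MvPolynomial.C_dvd_iff_dvd_coeff]
        intro i
        rw [← hk, ← MvPolynomial.coeff_map, h2, MvPolynomial.coeff_zero]
      obtain ⟨w, hw⟩ := h3
      refine ⟨qm _ w, ?_⟩
      show qm (rel k a σ) p = qm (rel k a σ) (MvPolynomial.C τ) * qm _ w
      rw [← map_mul, ← hw, ← sub_eq_zero, ← map_sub, sub_sub_cancel,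
        Ideal.Quotient.eq_zero_iff_mem]
      exact Ideal.mul_mem_right _ _ (Ideal.mem_span_singleton_self _)
    · rintro ⟨z, rfl⟩
      rw [map_mul, hc, (hk τ).2 dvd_rfl, map_zero, zero_mul]

/-- an element with a domain as quotient is prime -/
theorem prime_of_red {A D : Type} [CommRing A] [CommRing D] [IsDomain D] (ρ : A →+* D) (u : A)
    (hu : u ≠ 0) (hk : ∀ y, ρ y = 0 ↔ u ∣ y) : Prime u := by
  refine ⟨hu, ?_, ?_⟩
  · intro h
    have h1 : ρ u = 0 := (hk u).2 dvd_rfl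
    have h2 := h.map ρ
    rw [h1] at h2
    exact not_isUnit_zero h2
  · intro x y hxy
    have h1 := (hk _).2 hxy
    rw [map_mul] at h1
    rcases mul_eq_zero.1 h1 with h2 | h2
    · exact Or.inl ((hk x).1 h2)
    · exact Or.inr ((hk y).1 h2)

/-- `PP` with polynomial variables in the second relation -/
theorem pp_dom {E Q : Type} [CommRing E] [CommRing Q] (π : E →+* Q) (hπ : Function.Surjective π)
    (k : ℕ) (a σ : E) (l : ℕ) (b τ : E) (hk : ∀ x, π x = 0 ↔ τ ∣ x)
    (h1 : IsDomain (P1 k a σ)) (h2 : IsDomain (P1 k (π a) (π σ))) (hτ : c1 k a σ τ ≠ 0)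
    (hb : c1 k (π a) (π σ) (π b) ≠ 0) :
    Prime (c1 k a σ τ) ∧ ¬ c1 k a σ τ ∣ c1 k a σ b ∧ IsDomain (PP k a σ (l + 1) b τ) ∧
    ∀ x, c2 k a σ (l + 1) b τ x = 0 → c1 k a σ x = 0 := by
  obtain ⟨ρ, r1, r2, r3⟩ := p1_red π hπ τ hk k a σ
  have hp := prime_of_red ρ _ hτ r2
  have hnd : ¬ c1 k a σ τ ∣ c1 k a σ b := by
    intro h
    apply hb
    rw [← r3, r2]
    exact h
  obtain ⟨h3, h4⟩ := t_DOM _ _ _ hp hnd l
  exact ⟨hp, hnd, h3, fun x hx => h4 _ hx⟩

/-- `P1` with polynomial variables -/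
theorem p1_dom {E : Type} [CommRing E] [IsDomain E] (k : ℕ) (a σ : E) (h : Prime σ)
    (ha : ¬ σ ∣ a) : IsDomain (P1 (k + 1) a σ) ∧ ∀ x, c1 (k + 1) a σ x = 0 → x = 0 :=
  t_DOM E a σ h ha k

/-- the base rings: `s`, `t` are primes and `s` is prime modulo `t` -/
structure Bas (W : Type) [CommRing W] (s t : W) : Prop where
  dom : IsDomain W
  ps : Prime s
  pt : Prime t
  dq : IsDomain (W ⧸ Ideal.span {t})
  pst : Prime (Ideal.Quotient.mk (Ideal.span {t}) s)

theorem vp_ne_zero {V : Type} [CommRing V] [IsDomain V] {n : ℕ} (J : Finset (Fin n)) :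
    (vp J : MvPowerSeries (Fin n) V) ≠ 0 := by
  have hd : IsDomain (MvPowerSeries (Fin n) V) := NoZeroDivisors.to_isDomain _
  rw [vp, Finset.prod_ne_zero_iff]
  intro i _ h
  have h1 := congrArg (MvPowerSeries.coeff (Finsupp.single i 1)) h
  rw [MvPowerSeries.coeff_X, if_pos rfl, map_zero] at h1
  exact one_ne_zero h1

/-- the reduction of power series -/
theorem mps_red {W : Type} [CommRing W] (t : W) (n : ℕ) :
    Function.Surjective (MvPowerSeries.map (σ := Fin n) (Ideal.Quotient.mk (Ideal.span {t}))) ∧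
    ∀ x : MvPowerSeries (Fin n) W, MvPowerSeries.map (Ideal.Quotient.mk (Ideal.span {t})) x = 0 ↔
      MvPowerSeries.C t ∣ x := by
  constructor
  · intro f
    have h1 : ∀ ν, ∃ c : W, Ideal.Quotient.mk (Ideal.span {t}) c = MvPowerSeries.coeff ν f :=
      fun ν => Ideal.Quotient.mk_surjective _
    choose c hc using h1
    refine ⟨fun ν => c ν, ?_⟩
    ext ν
    rw [MvPowerSeries.coeff_map]
    exact hc ν
  · intro x
    constructor
    · intro h
      have h1 : ∀ ν, ∃ c, MvPowerSeries.coeff ν x = t * c := by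
        intro ν
        have h2 := congrArg (MvPowerSeries.coeff ν) h
        rw [MvPowerSeries.coeff_map, map_zero, Ideal.Quotient.eq_zero_iff_mem,
          Ideal.mem_span_singleton] at h2
        exact h2
      choose c hc using h1
      refine ⟨fun ν => c ν, ?_⟩
      ext ν
      rw [MvPowerSeries.coeff_C_mul, hc]
      rfl
    · rintro ⟨y, rfl⟩
      rw [map_mul, MvPowerSeries.map_C]
      have : Ideal.Quotient.mk (Ideal.span {t}) t = 0 :=
        Ideal.Quotient.eq_zero_iff_mem.2 (Ideal.mem_span_singleton_self _)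
      rw [this, map_zero, zero_mul]

theorem map_vp {V V' : Type} [CommRing V] [CommRing V'] (f : V →+* V') {n : ℕ}
    (J : Finset (Fin n)) : MvPowerSeries.map f (vp J) = (vp J : MvPowerSeries (Fin n) V') := by
  rw [vp, map_prod, vp]
  exact Finset.prod_congr rfl fun i _ => MvPowerSeries.map_X _ _

/-- the data with polynomial variables in both relations -/
theorem bas_dom {W : Type} [CommRing W] {s t : W} (h : Bas W s t) (n k l : ℕ)
    (I J : Finset (Fin n)) :
    IsDomain (P1 (k + 1) (vp I : MvPowerSeries (Fin n) W) (MvPowerSeries.C s)) ∧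
    Prime (c1 (k + 1) (vp I : MvPowerSeries (Fin n) W) (MvPowerSeries.C s) (MvPowerSeries.C t)) ∧
    ¬ (c1 (k + 1) (vp I : MvPowerSeries (Fin n) W) (MvPowerSeries.C s) (MvPowerSeries.C t)) ∣
      c1 (k + 1) (vp I : MvPowerSeries (Fin n) W) (MvPowerSeries.C s) (vp J) ∧
    IsDomain (PP (k + 1) (vp I : MvPowerSeries (Fin n) W) (MvPowerSeries.C s) (l + 1) (vp J)
      (MvPowerSeries.C t)) ∧
    ∀ x, c2 (k + 1) (vp I : MvPowerSeries (Fin n) W) (MvPowerSeries.C s) (l + 1) (vp J)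
      (MvPowerSeries.C t) x = 0 → x = 0 := by
  have hW := h.dom
  have hQ := h.dq
  have hE : IsDomain (MvPowerSeries (Fin n) W) := NoZeroDivisors.to_isDomain _
  have hEQ : IsDomain (MvPowerSeries (Fin n) (W ⧸ Ideal.span {t})) := NoZeroDivisors.to_isDomain _
  obtain ⟨p1, -, p2⟩ := (Pool.Agent.Q121.CS.t_PRC W s h.ps).2.2 n
  obtain ⟨p3, -, p4⟩ := (Pool.Agent.Q121.CS.t_PRC _ _ h.pst).2.2 n
  obtain ⟨d1, d2⟩ := p1_dom k (vp I) (MvPowerSeries.C s) p1 (p2 I)
  obtain ⟨r1, r2⟩ := mps_red t n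
  have e1 : MvPowerSeries.map (Ideal.Quotient.mk (Ideal.span {t}))
      (vp I : MvPowerSeries (Fin n) W) = vp I := map_vp _ _
  have e2 : MvPowerSeries.map (Ideal.Quotient.mk (Ideal.span {t}))
      (MvPowerSeries.C s : MvPowerSeries (Fin n) W) =
        MvPowerSeries.C (Ideal.Quotient.mk (Ideal.span {t}) s) := MvPowerSeries.map_C _ _
  have hQD : IsDomain (P1 (k + 1) (MvPowerSeries.map (Ideal.Quotient.mk (Ideal.span {t}))
      (vp I : MvPowerSeries (Fin n) W)) (MvPowerSeries.map (Ideal.Quotient.mk (Ideal.span {t}))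
      (MvPowerSeries.C s : MvPowerSeries (Fin n) W))) ∧
      ∀ x, c1 (k + 1) (MvPowerSeries.map (Ideal.Quotient.mk (Ideal.span {t}))
      (vp I : MvPowerSeries (Fin n) W)) (MvPowerSeries.map (Ideal.Quotient.mk (Ideal.span {t}))
      (MvPowerSeries.C s : MvPowerSeries (Fin n) W)) x = 0 → x = 0 := by
    rw [e1, e2]
    exact p1_dom k _ _ p3 (p4 I)
  obtain ⟨g1, g2, g3, g4⟩ := pp_dom (MvPowerSeries.map (Ideal.Quotient.mk (Ideal.span {t}))) r1
    (k + 1) (vp I) (MvPowerSeries.C s) l (vp J) (MvPowerSeries.C t) r2 d1 hQD.1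
    (fun h0 => ((Pool.Agent.Q121.CS.t_PRC W t h.pt).2.2 n).1.ne_zero (d2 _ h0))
    (fun h0 => vp_ne_zero J (by
      have h5 := hQD.2 _ h0
      rwa [map_vp] at h5))
  exact ⟨d1, g1, g2, g3, fun x hx => d2 x (g4 x hx)⟩

end Pool.Agent.H17.DC
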