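import Pool.Agent.H17.DN.Dvr
import Pool.Graph.R_pool_sql_team_seeded_3997aac3.H9C.DT.Asm
import Pool.Graph.R_pool_sql_team_seeded_3997aac3.Q121.CS.CVW

/-!
# From a polynomial variable to a power series variable, iterated quotients
-/

set_option autoImplicit false

open Polynomial

noncomputable section

namespace Pool.Agent.H17.DC

open BQ Pool.Agent.W394.BQN Pool.Agent.TH874.BQS Pool.Agent.H40.BP Pool.Agent.H9C.CS
  Pool.Agent.H9C.DT Pool.Agent.TH874.BQS.Sums IsLocalRing Pool.Agent.H17.DN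

/-- analytic isomorphisms and `QF` -/
theorem anpatch_qf {A R : Type} [CommRing A] [IsNoetherianRing A] [CommRing R] (ι : A →+* R)
    (g : A) (h : AnPatch ι g) {l : ℕ} (F : MvPolynomial (Fin l) A) (hdF : IsDomain (QF F))
    (hdG : IsDomain (QF (MvPolynomial.map ι F)))
    (hnu : ¬ IsUnit (qm F (MvPolynomial.C g)))
    (hne : qm (MvPolynomial.map ι F) (MvPolynomial.C (ι g)) ≠ 0) :
    AnPatch (bch ι F) (qm F (MvPolynomial.C g)) := by
  have hTR := t_TR _ _ ι g h l
  have hC : (MvPolynomial.map ι : MvPolynomial (Fin l) A →+* MvPolynomial (Fin l) R)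
      (MvPolynomial.C g) = MvPolynomial.C (ι g) := MvPolynomial.map_C _ _
  obtain ⟨ι', h1, h2⟩ := t_QUOT _ _ _ _ hTR F hdF hdG hnu (by rw [hC]; exact hne)
  have e : ι' = bch ι F := by
    apply qf_ext
    · intro a
      exact (h1 _).trans (bch_qm ι F _).symm
    · intro a
      exact (h1 _).trans (bch_qm ι F _).symm
  rw [← e]
  exact h2

/-- an analytic isomorphism and a prime ideal -/
theorem good_of_anpatch {C A : Type} [CommRing C] [IsDomain C] [CommRing A] [IsDomain A]
    (ι : C →+* A) (g : C) (h : AnPatch ι g) (q : Ideal A) [q.IsPrime] (hq : ι g ∈ q)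
    (hAF : AF (Localization.AtPrime (q.comap ι))) : Good A q := by
  have h3 := Pool.Agent.Q211.CS.t_LOCP _ _ ι _ h q hq
  refine Pool.Agent.Q211.CS.t_STEPB _ q _ _ _ h3 ?_ hAF
  rw [Localization.localRingHom_to_map]
  exact (IsLocalization.AtPrime.to_map_mem_maximal_iff (Localization.AtPrime q) q _).2 hq

/-- iterated quotients -/
theorem gcv2 {A R : Type} [CommRing A] [IsNoetherianRing A] [CommRing R] (ι : A →+* R)
    (g : A) (h : AnPatch ι g) {k l : ℕ} (F : MvPolynomial (Fin k) A)
    (G : MvPolynomial (Fin l) (QF F)) (hdF : IsDomain (QF F))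
    (hdF' : IsDomain (QF (MvPolynomial.map ι F))) (hdG : IsDomain (QF G))
    (hdG' : IsDomain (QF (MvPolynomial.map (bch ι F) G)))
    (hAF : LAF (QF G))
    (hne : qm (MvPolynomial.map (bch ι F) G) (MvPolynomial.C
      (qm (MvPolynomial.map ι F) (MvPolynomial.C (ι g)))) ≠ 0)
    (q : Ideal (QF (MvPolynomial.map (bch ι F) G))) [q.IsPrime]
    (hq : qm (MvPolynomial.map (bch ι F) G) (MvPolynomial.C
      (qm (MvPolynomial.map ι F) (MvPolynomial.C (ι g)))) ∈ q) :
    Good (QF (MvPolynomial.map (bch ι F) G)) q := by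
  have hb : bch ι F (qm F (MvPolynomial.C g)) =
      qm (MvPolynomial.map ι F) (MvPolynomial.C (ι g)) := by
    rw [bch_qm, MvPolynomial.map_C]
  have hbb : bch (bch ι F) G (qm G (MvPolynomial.C (qm F (MvPolynomial.C g)))) =
      qm (MvPolynomial.map (bch ι F) G) (MvPolynomial.C
        (qm (MvPolynomial.map ι F) (MvPolynomial.C (ι g)))) := by
    rw [bch_qm, MvPolynomial.map_C, hb]
  have hq' : q.IsPrime := inferInstance
  have hnu2 : ¬ IsUnit (qm G (MvPolynomial.C (qm F (MvPolynomial.C g)))) := by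
    intro hu
    have := hu.map (bch (bch ι F) G)
    rw [hbb] at this
    exact hq'.ne_top (Ideal.eq_top_of_isUnit_mem q hq this)
  have hnu1 : ¬ IsUnit (qm F (MvPolynomial.C g)) := by
    intro hu
    exact hnu2 ((hu.map MvPolynomial.C).map _)
  have hne1 : qm (MvPolynomial.map ι F) (MvPolynomial.C (ι g)) ≠ 0 := by
    intro h0
    apply hne
    rw [h0, map_zero, map_zero]
  have h1 := anpatch_qf ι g h F hdF hdF' hnu1 hne1
  have hN : IsNoetherianRing (QF F) := Pool.Agent.Q263.DT.qf_noeth _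
  have h2 := anpatch_qf (bch ι F) _ h1 G hdG hdG' hnu2 (by rw [hb]; exact hne)
  exact good_of_anpatch _ _ h2 q (by rw [hbb]; exact hq) (hAF _)

/-- a variable is moved to the first place -/
theorem swpg (V : Type) [CommRing V] (s : ℕ) (i : Fin s) :
    ∃ (n : ℕ) (g : Fin n → Fin s) (e : MvPowerSeries (Fin s) V ≃+*
      PowerSeries (MvPowerSeries (Fin n) V)), s = n + 1 ∧ Function.Injective g ∧
      (∀ k, g k ≠ i) ∧ (∀ j, j ≠ i → ∃ k, g k = j) ∧
      e (MvPowerSeries.X i) = PowerSeries.X ∧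
      (∀ a : V, e (MvPowerSeries.C a) = PowerSeries.C (MvPowerSeries.C a)) ∧
      ∀ k, e (MvPowerSeries.X (g k)) = PowerSeries.C (MvPowerSeries.X k) := by
  classical
  cases s with
  | zero => exact i.elim0
  | succ n =>
    let ρ : MvPowerSeries (Fin (n + 1)) V ≃+* MvPowerSeries (Fin (n + 1)) V :=
      (MvPowerSeries.renameEquiv V (Equiv.swap 0 i)).toRingEquiv
    have hρX : ∀ j, ρ (MvPowerSeries.X j) = MvPowerSeries.X (Equiv.swap 0 i j) := fun j => by
      change MvPowerSeries.rename (Equiv.swap 0 i) (MvPowerSeries.X j) = _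
      rw [MvPowerSeries.rename_X]
    have hρC : ∀ a, ρ (MvPowerSeries.C a) = MvPowerSeries.C a := fun a => by
      change MvPowerSeries.rename (Equiv.swap 0 i) (MvPowerSeries.C a) = _
      rw [MvPowerSeries.rename_C]
    let e : MvPowerSeries (Fin (n + 1)) V ≃+* PowerSeries (MvPowerSeries (Fin n) V) :=
      ρ.trans (MvPowerSeries.finSuccEquiv V n).toRingEquiv
    have he : ∀ f, e f = MvPowerSeries.finSuccEquiv V n (ρ f) := fun f => rfl
    refine ⟨n, fun k => Equiv.swap 0 i k.succ, e, rfl, ?_, ?_, ?_, ?_, fun a => ?_, ?_⟩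
    · intro a b hab
      exact Fin.succ_injective n ((Equiv.swap 0 i).injective hab)
    · intro k hk
      have h1 := congrArg (Equiv.swap 0 i) hk
      rw [Equiv.swap_apply_self, Equiv.swap_apply_right] at h1
      exact Fin.succ_ne_zero k h1
    · intro j hj
      have h1 : Equiv.swap 0 i j ≠ 0 := by
        intro h
        apply hj
        have h2 := congrArg (Equiv.swap 0 i) h
        rwa [Equiv.swap_apply_self, Equiv.swap_apply_left] at h2
      obtain ⟨k, hk⟩ := Fin.exists_succ_eq.2 h1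
      refine ⟨k, ?_⟩
      show Equiv.swap 0 i k.succ = j
      rw [hk, Equiv.swap_apply_self]
    · rw [he, hρX, Equiv.swap_apply_right, MvPowerSeries.finSuccEquiv_X_zero]
    · rw [he, hρC, MvPowerSeries.finSuccEquiv_C]
    · intro k
      rw [he, hρX, Equiv.swap_apply_self, MvPowerSeries.finSuccEquiv_X_succ]

end Pool.Agent.H17.DC
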