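import Pool.Agent.H17.DC.Gcv

/-!
# The rings `E[z,w]/(a z_1 ⋯ z_k - σ, b w_1 ⋯ w_l - τ)`
-/

set_option autoImplicit false

open Polynomial

noncomputable section

namespace Pool.Agent.H17.DC

open BQ Pool.Agent.W394.BQN Pool.Agent.TH874.BQS Pool.Agent.H40.BP Pool.Agent.H9C.CS
  Pool.Agent.H9C.DT Pool.Agent.TH874.BQS.Sums IsLocalRing Pool.Agent.H17.DN

/-- `E[z_1,...,z_k]/(a z_1 ⋯ z_k - σ)` -/
abbrev P1 {E : Type} [CommRing E] (k : ℕ) (a σ : E) : Type := QF (rel k a σ)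

/-- constants in `P1` -/
abbrev c1 {E : Type} [CommRing E] (k : ℕ) (a σ : E) : E →+* P1 k a σ :=
  (qm (rel k a σ)).comp MvPolynomial.C

/-- `E[z,w]/(a z_1 ⋯ z_k - σ, b w_1 ⋯ w_l - τ)` -/
abbrev PP {E : Type} [CommRing E] (k : ℕ) (a σ : E) (l : ℕ) (b τ : E) : Type :=
  P1 l (c1 k a σ b) (c1 k a σ τ)

/-- constants in `PP` -/
abbrev c2 {E : Type} [CommRing E] (k : ℕ) (a σ : E) (l : ℕ) (b τ : E) : E →+* PP k a σ l b τ :=
  (c1 l (c1 k a σ b) (c1 k a σ τ)).comp (c1 k a σ)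

section lift

variable {E R : Type} [CommRing E] [CommRing R] {k : ℕ} {a σ : E}

theorem p1_rel (k : ℕ) (a σ : E) : c1 k a σ a * ∏ i, qm (rel k a σ) (MvPolynomial.X i) =
    c1 k a σ σ := by
  rw [← map_prod]
  show qm (rel k a σ) (MvPolynomial.C a) * _ = qm (rel k a σ) (MvPolynomial.C σ)
  rw [← map_mul, ← sub_eq_zero, ← map_sub, Ideal.Quotient.eq_zero_iff_mem]
  exact Ideal.mem_span_singleton_self _

/-- maps out of `P1` -/
def p1Lift (f : E →+* R) (x : Fin k → R) (h : f a * ∏ i, x i = f σ) : P1 k a σ →+* R :=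
  Ideal.Quotient.lift _ (MvPolynomial.eval₂Hom f x) (by
    intro c hc
    obtain ⟨d, rfl⟩ := Ideal.mem_span_singleton.1 hc
    rw [map_mul]
    have : MvPolynomial.eval₂Hom f x (rel k a σ) = 0 := by
      unfold rel
      rw [map_sub, map_mul, map_prod, sub_eq_zero]
      simp only [MvPolynomial.eval₂Hom_X', MvPolynomial.eval₂Hom_C]
      exact h
    rw [this, zero_mul])

theorem p1Lift_c (f : E →+* R) (x : Fin k → R) (h : f a * ∏ i, x i = f σ) (b : E) :
    p1Lift f x h (c1 k a σ b) = f b := by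
  show p1Lift f x h (qm _ (MvPolynomial.C b)) = f b
  unfold p1Lift
  rw [Ideal.Quotient.lift_mk, MvPolynomial.eval₂Hom_C]

theorem p1Lift_X (f : E →+* R) (x : Fin k → R) (h : f a * ∏ i, x i = f σ) (i : Fin k) :
    p1Lift f x h (qm _ (MvPolynomial.X i)) = x i := by
  unfold p1Lift
  rw [Ideal.Quotient.lift_mk, MvPolynomial.eval₂Hom_X']

theorem p1_ext (f g : P1 k a σ →+* R) (hC : ∀ b, f (c1 k a σ b) = g (c1 k a σ b))
    (hX : ∀ i, f (qm _ (MvPolynomial.X i)) = g (qm _ (MvPolynomial.X i))) : f = g :=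
  qf_ext f g hC hX

end lift

/-- transport of `P1` -/
theorem p1_map {E E' : Type} [CommRing E] [CommRing E'] (e : E ≃+* E') (k : ℕ) (a σ : E)
    (a' σ' : E') (ha : e a = a') (hσ : e σ = σ') :
    ∃ f : P1 k a σ ≃+* P1 k a' σ', ∀ x, f (c1 k a σ x) = c1 k a' σ' (e x) := by
  subst ha hσ
  have hm : MvPolynomial.map (e : E →+* E') (rel k a σ) = rel k (e a) (e σ) := by
    rw [Pool.Agent.H40.BP.map_rel]
    rfl
  exact ⟨qfEquiv e (rel k a σ) (rel k (e a) (e σ)) hm, fun x => qfEquiv_C e _ _ hm x⟩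

/-- transport of `PP` -/
theorem pp_map {E E' : Type} [CommRing E] [CommRing E'] (e : E ≃+* E') (k : ℕ) (a σ : E)
    (l : ℕ) (b τ : E) (a' σ' b' τ' : E') (ha : e a = a') (hσ : e σ = σ') (hb : e b = b')
    (hτ : e τ = τ') :
    ∃ f : PP k a σ l b τ ≃+* PP k a' σ' l b' τ', ∀ x, f (c2 k a σ l b τ x) =
      c2 k a' σ' l b' τ' (e x) := by
  obtain ⟨f, hf⟩ := p1_map e k a σ a' σ' ha hσ
  obtain ⟨F, hF⟩ := p1_map f l (c1 k a σ b) (c1 k a σ τ) (c1 k a' σ' b') (c1 k a' σ' τ')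
    (by rw [hf, hb]) (by rw [hf, hτ])
  refine ⟨F, fun x => ?_⟩
  show F (c1 l _ _ (c1 k a σ x)) = _
  rw [hF, hf]
  rfl

/-- symmetry of `PP` -/
theorem pp_swap {E : Type} [CommRing E] (k : ℕ) (a σ : E) (l : ℕ) (b τ : E) :
    ∃ f : PP k a σ l b τ ≃+* PP l b τ k a σ, ∀ x, f (c2 k a σ l b τ x) = c2 l b τ k a σ x := by
  have key : ∀ (k : ℕ) (a σ : E) (l : ℕ) (b τ : E), ∃ F : PP k a σ l b τ →+* PP l b τ k a σ,
      (∀ x, F (c2 k a σ l b τ x) = c2 l b τ k a σ x) ∧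
      (∀ i, F (c1 l (c1 k a σ b) (c1 k a σ τ) (qm (rel k a σ) (MvPolynomial.X i))) =
        qm (rel k (c1 l b τ a) (c1 l b τ σ)) (MvPolynomial.X i)) ∧
      ∀ j, F (qm _ (MvPolynomial.X j)) = c1 k (c1 l b τ a) (c1 l b τ σ)
        (qm (rel l b τ) (MvPolynomial.X j)) := by
    intro k a σ l b τ
    obtain ⟨F₁, hF₁⟩ : ∃ F₁ : P1 k a σ →+* PP l b τ k a σ, F₁ = p1Lift (c2 l b τ k a σ)
      (fun i => qm (rel k (c1 l b τ a) (c1 l b τ σ)) (MvPolynomial.X i))
      (p1_rel k (c1 l b τ a) (c1 l b τ σ)) := ⟨_, rfl⟩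
    have h1 : ∀ x, F₁ (c1 k a σ x) = c2 l b τ k a σ x := fun x => by rw [hF₁, p1Lift_c]
    have h2 : ∀ i, F₁ (qm (rel k a σ) (MvPolynomial.X i)) =
      qm (rel k (c1 l b τ a) (c1 l b τ σ)) (MvPolynomial.X i) := fun x => by rw [hF₁, p1Lift_X]
    have h3 : F₁ (c1 k a σ b) * ∏ j, c1 k (c1 l b τ a) (c1 l b τ σ)
        (qm (rel l b τ) (MvPolynomial.X j)) = F₁ (c1 k a σ τ) := by
      rw [h1, h1, ← map_prod]
      show c1 k (c1 l b τ a) (c1 l b τ σ) (c1 l b τ b) * _ =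
        c1 k (c1 l b τ a) (c1 l b τ σ) (c1 l b τ τ)
      rw [← map_mul, p1_rel]
    refine ⟨p1Lift F₁ _ h3, ?_, ?_, ?_⟩
    · intro x
      show p1Lift F₁ _ h3 (c1 _ _ _ (c1 k a σ x)) = _
      rw [p1Lift_c, h1]
    · intro i
      rw [p1Lift_c, h2]
    · intro j
      rw [p1Lift_X]
  obtain ⟨F, f1, f2, f3⟩ := key k a σ l b τ
  obtain ⟨G, g1, g2, g3⟩ := key l b τ k a σ
  have comp : ∀ (k : ℕ) (a σ : E) (l : ℕ) (b τ : E) (F : PP k a σ l b τ →+* PP l b τ k a σ)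
      (G : PP l b τ k a σ →+* PP k a σ l b τ),
      (∀ x, F (c2 k a σ l b τ x) = c2 l b τ k a σ x) →
      (∀ i, F (c1 l (c1 k a σ b) (c1 k a σ τ) (qm (rel k a σ) (MvPolynomial.X i))) =
        qm (rel k (c1 l b τ a) (c1 l b τ σ)) (MvPolynomial.X i)) →
      (∀ j, F (qm _ (MvPolynomial.X j)) = c1 k (c1 l b τ a) (c1 l b τ σ)
        (qm (rel l b τ) (MvPolynomial.X j))) →
      (∀ x, G (c2 l b τ k a σ x) = c2 k a σ l b τ x) →
      (∀ i, G (c1 k (c1 l b τ a) (c1 l b τ σ) (qm (rel l b τ) (MvPolynomial.X i))) =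
        qm (rel l (c1 k a σ b) (c1 k a σ τ)) (MvPolynomial.X i)) →
      (∀ j, G (qm _ (MvPolynomial.X j)) = c1 l (c1 k a σ b) (c1 k a σ τ)
        (qm (rel k a σ) (MvPolynomial.X j))) → G.comp F = RingHom.id _ := by
    intro k a σ l b τ F G f1 f2 f3 g1 g2 g3
    apply p1_ext
    · intro y
      have h : (G.comp F).comp (c1 l (c1 k a σ b) (c1 k a σ τ)) =
          c1 l (c1 k a σ b) (c1 k a σ τ) := by
        apply p1_ext
        · intro x
          show G (F (c2 k a σ l b τ x)) = c2 k a σ l b τ x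
          rw [f1, g1]
        · intro i
          show G (F (c1 l _ _ (qm (rel k a σ) (MvPolynomial.X i)))) = _
          rw [f2, g3]
      exact RingHom.congr_fun h y
    · intro j
      show G (F (qm _ (MvPolynomial.X j))) = _
      rw [f3, g2]
      rfl
  refine ⟨RingEquiv.ofRingHom F G (comp l b τ k a σ G F g1 g2 g3 f1 f2 f3)
    (comp k a σ l b τ F G f1 f2 f3 g1 g2 g3), f1⟩

/-- `P1` over a polynomial ring -/
theorem p1_poly {E : Type} [CommRing E] (k : ℕ) (a σ : E) :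
    ∃ f : (P1 k a σ)[X] ≃+* P1 k (Polynomial.C a) (Polynomial.C σ),
      (∀ x : E, f (Polynomial.C (c1 k a σ x)) = c1 k (Polynomial.C a) (Polynomial.C σ)
        (Polynomial.C x)) ∧ f X = c1 k (Polynomial.C a) (Polynomial.C σ) X := by
  -- the map
  obtain ⟨F₁, hF₁⟩ : ∃ F₁ : P1 k a σ →+* P1 k (Polynomial.C a) (Polynomial.C σ),
      F₁ = p1Lift ((c1 k (Polynomial.C a) (Polynomial.C σ)).comp Polynomial.C)
        (fun i => qm _ (MvPolynomial.X i)) (p1_rel k (Polynomial.C a) (Polynomial.C σ)) := ⟨_, rfl⟩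
  have h1 : ∀ x, F₁ (c1 k a σ x) = c1 k (Polynomial.C a) (Polynomial.C σ) (Polynomial.C x) :=
    fun x => by
      rw [hF₁, p1Lift_c]
      rfl
  have h2 : ∀ i, F₁ (qm (rel k a σ) (MvPolynomial.X i)) =
    qm (rel k (Polynomial.C a) (Polynomial.C σ)) (MvPolynomial.X i) := fun x => by
      rw [hF₁, p1Lift_X]
  obtain ⟨F, hF⟩ : ∃ F : (P1 k a σ)[X] →+* P1 k (Polynomial.C a) (Polynomial.C σ),
    F = Polynomial.eval₂RingHom F₁ (c1 k (Polynomial.C a) (Polynomial.C σ) X) := ⟨_, rfl⟩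
  have hFC : ∀ y, F (Polynomial.C y) = F₁ y := fun y => by
    rw [hF, Polynomial.coe_eval₂RingHom, Polynomial.eval₂_C]
  have hFX : F X = c1 k (Polynomial.C a) (Polynomial.C σ) X := by
    rw [hF, Polynomial.coe_eval₂RingHom, Polynomial.eval₂_X]
  -- the inverse
  obtain ⟨G, hG⟩ : ∃ G : P1 k (Polynomial.C a) (Polynomial.C σ) →+* (P1 k a σ)[X],
    G = p1Lift (Polynomial.mapRingHom (c1 k a σ))
      (fun i => Polynomial.C (qm (rel k a σ) (MvPolynomial.X i))) (by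
        rw [← map_prod, Polynomial.coe_mapRingHom, Polynomial.map_C, Polynomial.map_C,
          ← Polynomial.C_mul, p1_rel]) := ⟨_, rfl⟩
  have hGC : ∀ y, G (c1 k (Polynomial.C a) (Polynomial.C σ) y) = y.map (c1 k a σ) := fun y => by
    rw [hG, p1Lift_c]
    rfl
  have hGX : ∀ i, G (qm _ (MvPolynomial.X i)) = Polynomial.C (qm (rel k a σ)
    (MvPolynomial.X i)) := fun i => by rw [hG, p1Lift_X]
  refine ⟨RingEquiv.ofRingHom F G ?_ ?_, fun x => ?_, hFX⟩
  · apply p1_ext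
    · intro y
      have h : (F.comp G).comp (c1 k (Polynomial.C a) (Polynomial.C σ)) =
          c1 k (Polynomial.C a) (Polynomial.C σ) := by
        apply Polynomial.ringHom_ext
        · intro x
          show F (G (c1 k (Polynomial.C a) (Polynomial.C σ) (Polynomial.C x))) = _
          rw [hGC, Polynomial.map_C, hFC, h1]
        · show F (G (c1 k (Polynomial.C a) (Polynomial.C σ) X)) = _
          rw [hGC, Polynomial.map_X, hFX]
      exact RingHom.congr_fun h y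
    · intro i
      show F (G _) = _
      rw [hGX, hFC, h2]
      rfl
  · apply Polynomial.ringHom_ext
    · intro y
      have h : (G.comp F).comp (Polynomial.C : P1 k a σ →+* (P1 k a σ)[X]) = Polynomial.C := by
        refine p1_ext (R := (P1 k a σ)[X]) _ _ ?_ ?_
        · intro x
          show G (F (Polynomial.C (c1 k a σ x))) = _
          rw [hFC, h1, hGC, Polynomial.map_C]
        · intro i
          show G (F (Polynomial.C _)) = _
          rw [hFC, h2, hGX]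
      exact RingHom.congr_fun h y
    · show G (F X) = X
      rw [hFX, hGC, Polynomial.map_X]
  · show F (Polynomial.C (c1 k a σ x)) = _
    rw [hFC, h1]

end Pool.Agent.H17.DC
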