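import Pool.Agent.H17.DC.Dom

/-!
# The steps for prime ideals which contain a variable or a regular power series
-/

set_option autoImplicit false

open Polynomial

noncomputable section

namespace Pool.Agent.H17.DC

open BQ Pool.Agent.W394.BQN Pool.Agent.TH874.BQS Pool.Agent.H40.BP Pool.Agent.H9C.CS
  Pool.Agent.H9C.DT Pool.Agent.TH874.BQS.Sums IsLocalRing Pool.Agent.H17.DN

/-- analytic isomorphisms and `PP` -/
theorem gcv_pp {A R : Type} [CommRing A] [IsNoetherianRing A] [CommRing R] (ι : A →+* R)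
    (g : A) (h : AnPatch ι g) (k : ℕ) (a σ : A) (l : ℕ) (b τ : A) (a' σ' b' τ' : R)
    (ha : ι a = a') (hσ : ι σ = σ') (hb : ι b = b') (hτ : ι τ = τ')
    (d1 : IsDomain (P1 k a σ)) (d2 : IsDomain (P1 k a' σ')) (d3 : IsDomain (PP k a σ l b τ))
    (d4 : IsDomain (PP k a' σ' l b' τ')) (hAF : LAF (PP k a σ l b τ))
    (hne : c2 k a' σ' l b' τ' (ι g) ≠ 0) (q : Ideal (PP k a' σ' l b' τ')) [q.IsPrime]
    (hq : c2 k a' σ' l b' τ' (ι g) ∈ q) : Good (PP k a' σ' l b' τ') q := by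
  subst ha hσ hb hτ
  have key : ∀ (F' : MvPolynomial (Fin k) R), MvPolynomial.map ι (rel k a σ) = F' →
      ∀ (G' : MvPolynomial (Fin l) (QF F')),
        G' = rel l (qm F' (MvPolynomial.C (ι b))) (qm F' (MvPolynomial.C (ι τ))) →
        IsDomain (QF F') → IsDomain (QF G') →
        qm G' (MvPolynomial.C (qm F' (MvPolynomial.C (ι g)))) ≠ 0 →
        ∀ (q : Ideal (QF G')) [q.IsPrime],
          qm G' (MvPolynomial.C (qm F' (MvPolynomial.C (ι g)))) ∈ q → Good (QF G') q := by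
    rintro F' rfl G' hG d2 d4 hne q hq0 hq
    have hb1 : ∀ x : A, bch ι (rel k a σ) (c1 k a σ x) =
        qm (MvPolynomial.map ι (rel k a σ)) (MvPolynomial.C (ι x)) := fun x => by
      show bch ι (rel k a σ) (qm _ (MvPolynomial.C x)) = _
      rw [bch_qm, MvPolynomial.map_C]
    have hG2 : MvPolynomial.map (bch ι (rel k a σ)) (rel l (c1 k a σ b) (c1 k a σ τ)) = G' := by
      rw [hG]
      refine (Pool.Agent.H40.BP.map_rel _ _ _ _).trans ?_
      rw [hb1, hb1]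
    subst hG2
    exact gcv2 ι g h (rel k a σ) (rel l (c1 k a σ b) (c1 k a σ τ)) d1 d2 d3 d4 hAF hne q hq
  exact key (rel k (ι a) (ι σ)) (Pool.Agent.H40.BP.map_rel ι k a σ) _ rfl d2 d4 hne q hq

/-- the ring with a polynomial variable as coefficient of the second relation -/
theorem pp_outer {E : Type} [CommRing E] (k : ℕ) (a σ : E) (l : ℕ) (b τ : E) :
    Nonempty (PP (E := E[X]) k (C a) (C σ) l (C b * X) (C τ) ≃+* PP k a σ (l + 1) b τ) := by
  obtain ⟨f, hfC, hfX⟩ := p1_poly k a σ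
  obtain ⟨F, -⟩ := p1_map f.symm l (c1 k (C a) (C σ) (C b * X)) (c1 k (C a) (C σ) (C τ))
    (C (c1 k a σ b) * X) (C (c1 k a σ τ)) (by
      rw [RingEquiv.symm_apply_eq, map_mul f, hfC, hfX, ← map_mul]) (by
      rw [RingEquiv.symm_apply_eq, hfC])
  obtain ⟨G⟩ := t_POLR (P1 k a σ) l (c1 k a σ b) (c1 k a σ τ)
  exact ⟨F.trans G.symm⟩

/-- `PP` over a polynomial ring -/
theorem pp_poly {E : Type} [CommRing E] (k : ℕ) (a σ : E) (l : ℕ) (b τ : E) :
    Nonempty (PP (E := E[X]) k (C a) (C σ) l (C b) (C τ) ≃+* (PP k a σ l b τ)[X]) := by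
  obtain ⟨f, hfC, hfX⟩ := p1_poly k a σ
  obtain ⟨F, -⟩ := p1_map f.symm l (c1 k (C a) (C σ) (C b)) (c1 k (C a) (C σ) (C τ))
    (C (c1 k a σ b)) (C (c1 k a σ τ)) (by rw [RingEquiv.symm_apply_eq, hfC]) (by
      rw [RingEquiv.symm_apply_eq, hfC])
  obtain ⟨G, -, -⟩ := p1_poly l (c1 k a σ b) (c1 k a σ τ)
  exact ⟨F.trans G.symm⟩

/-- domains and polynomial rings -/
theorem dom_poly {A B : Type} [CommRing A] [CommRing B] [IsDomain A] (e : A[X] ≃+* B) :
    IsDomain B := MulEquiv.isDomain _ e.symm.toMulEquiv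

/-- the finite sets after the removal of a variable -/
theorem vp_image {V : Type} [CommRing V] {s n : ℕ} (g : Fin n → Fin s)
    (hg : Function.Injective g) (i : Fin s) (hgi : ∀ k, g k ≠ i)
    (hgs : ∀ j, j ≠ i → ∃ k, g k = j)
    (e : MvPowerSeries (Fin s) V ≃+* PowerSeries (MvPowerSeries (Fin n) V))
    (heX : e (MvPowerSeries.X i) = PowerSeries.X)
    (heg : ∀ k, e (MvPowerSeries.X (g k)) = PowerSeries.C (MvPowerSeries.X k))
    (J : Finset (Fin s)) : ∃ K : Finset (Fin n), (∀ k, k ∈ K ↔ g k ∈ J) ∧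
      (i ∉ J → e (vp J) = PowerSeries.C (vp K) ∧ K.card = J.card) ∧
      (i ∈ J → e (vp J) = PowerSeries.X * PowerSeries.C (vp K) ∧ K.card + 1 = J.card) := by
  classical
  obtain ⟨K, hK⟩ : ∃ K : Finset (Fin n), K = Finset.univ.filter (fun k => g k ∈ J) := ⟨_, rfl⟩
  have hKm : ∀ k, k ∈ K ↔ g k ∈ J := fun k => by rw [hK]; simp
  have hJe : J.erase i = K.map ⟨g, hg⟩ := by
    ext j
    rw [Finset.mem_erase, Finset.mem_map]
    constructor
    · rintro ⟨h1, h2⟩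
      obtain ⟨k, rfl⟩ := hgs j h1
      exact ⟨k, (hKm k).2 h2, rfl⟩
    · rintro ⟨k, hk, rfl⟩
      exact ⟨hgi k, (hKm k).1 hk⟩
  have hpr : ∏ j ∈ J.erase i, e (MvPowerSeries.X j) = PowerSeries.C (vp K) := by
    rw [hJe, Finset.prod_map, vp, map_prod]
    exact Finset.prod_congr rfl fun k _ => heg k
  have hcard : (J.erase i).card = K.card := by rw [hJe, Finset.card_map]
  refine ⟨K, hKm, fun hi => ?_, fun hi => ?_⟩
  · have h1 : J.erase i = J := Finset.erase_eq_of_notMem hi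
    rw [h1] at hpr hcard
    refine ⟨?_, hcard.symm⟩
    rw [vp, map_prod, hpr]
  · refine ⟨?_, ?_⟩
    · rw [vp, map_prod, ← Finset.mul_prod_erase J _ hi, heX, hpr]
    · rw [← hcard, Finset.card_erase_add_one hi]

/-- all data of the ring over power series -/
abbrev PW (W : Type) [CommRing W] (n : ℕ) (k : ℕ) (I : Finset (Fin n)) (σ : W) (l : ℕ)
    (J : Finset (Fin n)) (τ : W) : Type :=
  PP k (vp I : MvPowerSeries (Fin n) W) (MvPowerSeries.C σ) l (vp J) (MvPowerSeries.C τ)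

/-- the step for a variable of the second relation in the prime ideal -/
theorem step_outer {W : Type} [CommRing W] [IsDomain W] [IsNoetherianRing W] (σ τ : W)
    (n k l : ℕ) (I J : Finset (Fin n)) (i : Fin n) (hiJ : i ∈ J) (hiI : i ∉ I)
    (d1 : IsDomain (P1 k (vp I : MvPowerSeries (Fin n) W) (MvPowerSeries.C σ)))
    (d2 : IsDomain (PW W n k I σ l J τ))
    (hne : c2 k (vp I : MvPowerSeries (Fin n) W) (MvPowerSeries.C σ) l (vp J)
      (MvPowerSeries.C τ) (MvPowerSeries.X i) ≠ 0)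
    (ih : ∀ (n' : ℕ) (I' J' : Finset (Fin n')), n = n' + 1 → I'.card = I.card →
      J'.card + 1 = J.card → (Disjoint I J → Disjoint I' J') →
      IsDomain (P1 k (vp I' : MvPowerSeries (Fin n') W) (MvPowerSeries.C σ)) ∧
      IsDomain (PW W n' k I' σ (l + 1) J' τ) ∧ LAF (PW W n' k I' σ (l + 1) J' τ))
    (q : Ideal (PW W n k I σ l J τ)) [q.IsPrime]
    (hq : c2 k (vp I : MvPowerSeries (Fin n) W) (MvPowerSeries.C σ) l (vp J)
      (MvPowerSeries.C τ) (MvPowerSeries.X i) ∈ q) : Good (PW W n k I σ l J τ) q := by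
  obtain ⟨n', g, e, hn, hg, hgi, hgs, heX, heC, heg⟩ := swpg W n i
  obtain ⟨I', hI', hI2, -⟩ := vp_image g hg i hgi hgs e heX heg I
  obtain ⟨J', hJ', -, hJ2⟩ := vp_image g hg i hgi hgs e heX heg J
  obtain ⟨hIe, hIc⟩ := hI2 hiI
  obtain ⟨hJe, hJc⟩ := hJ2 hiJ
  obtain ⟨f1, f2, f3⟩ := ih n' I' J' hn hIc hJc (fun hd => by
    rw [Finset.disjoint_left] at hd ⊢
    intro x hx hx2
    exact hd ((hI' x).1 hx) ((hJ' x).1 hx2))
  obtain ⟨ψ, hψ⟩ := pp_map e k (vp I) (MvPowerSeries.C σ) l (vp J) (MvPowerSeries.C τ)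
    (PowerSeries.C (vp I')) (PowerSeries.C (MvPowerSeries.C σ))
    (PowerSeries.X * PowerSeries.C (vp J')) (PowerSeries.C (MvPowerSeries.C τ)) hIe (heC σ) hJe
    (heC τ)
  obtain ⟨ψ1, -⟩ := p1_map e k (vp I) (MvPowerSeries.C σ) (PowerSeries.C (vp I'))
    (PowerSeries.C (MvPowerSeries.C σ)) hIe (heC σ)
  refine Pool.Agent.Q211.CS.t_TRN _ _ ψ.symm q ?_
  obtain ⟨O⟩ := pp_outer k (vp I' : MvPowerSeries (Fin n') W) (MvPowerSeries.C σ) l (vp J')
    (MvPowerSeries.C τ)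
  obtain ⟨P, -, -⟩ := p1_poly k (vp I' : MvPowerSeries (Fin n') W) (MvPowerSeries.C σ)
  have eX : cps (MvPowerSeries (Fin n') W) X = PowerSeries.X := Polynomial.coe_X
  have eC : ∀ u, cps (MvPowerSeries (Fin n') W) (C u) = PowerSeries.C u :=
    fun u => Polynomial.coe_C _
  have hval : ψ (c2 k (vp I : MvPowerSeries (Fin n) W) (MvPowerSeries.C σ) l (vp J)
      (MvPowerSeries.C τ) (MvPowerSeries.X i)) = c2 k (PowerSeries.C (vp I'))
    (PowerSeries.C (MvPowerSeries.C σ)) l (PowerSeries.X * PowerSeries.C (vp J'))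
    (PowerSeries.C (MvPowerSeries.C τ)) (cps (MvPowerSeries (Fin n') W) X) := by
    rw [hψ, heX, eX]
  refine gcv_pp (cps (MvPowerSeries (Fin n') W)) X (Pool.Agent.Q121.CS.anpatch_X _) k
    (C (vp I')) (C (MvPowerSeries.C σ)) l (C (vp J') * X) (C (MvPowerSeries.C τ)) _ _ _ _
    (eC _) (eC _) (by rw [map_mul, eC, eX, mul_comm]) (eC _) (dom_poly P)
    (MulEquiv.isDomain _ ψ1.symm.toMulEquiv) (MulEquiv.isDomain _ O.toMulEquiv)
    (MulEquiv.isDomain _ ψ.symm.toMulEquiv) (LAF.of_equiv O.symm f3) ?_ _ ?_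
  · rw [← hval]
    intro h0
    exact hne ((map_eq_zero_iff ψ ψ.injective).1 h0)
  · rw [Ideal.mem_comap, ← hval]
    show ψ.symm (ψ _) ∈ q
    rw [ψ.symm_apply_apply]
    exact hq

end Pool.Agent.H17.DC
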